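import Pool.Agent.KS6_48.THR.Ind
import Pool.Graph.R_pool_sql_team_seeded_63374d34.N917.MB.W4
import Pool.Graph.R_pool_sql_team_seeded_63374d34.N917.K4.Asm
import Pool.Graph.R_pool_sql_team_seeded_63374d34.N917.K4.Loc
import Pool.Graph.R_pool_sql_team_seeded_63374d34.N917.K4.F
import Pool.Graph.R_pool_sql_team_seeded_63374d34.N917.K4.NUM
import Pool.Graph.R_pool_sql_team_seeded_63374d34.N917.K4.SET
import Pool.Graph.R_pool_sql_team_seeded_63374d34.N917.K4.P
import Pool.Graph.R_pool_sql_team_seeded_63374d34.N917.K4.GH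
import Pool.Graph.R_pool_sql_team_seeded_63374d34.N917.K4.SUM
import Pool.Graph.R_pool_sql_team_seeded_63374d34.N917.K4.MOVE
import Pool.Graph.R_pool_sql_team_seeded_63374d34.N917.K4.CNT
import Pool.Graph.R_pool_sql_team_seeded_63374d34.N917.K4.MAX
import Pool.Graph.R_pool_sql_team_seeded_63374d34.N917.K4.LOCG

/-!
MP_76b19e_co, Q1: the exact minimum number of copies of `K_{r+1}` in an `n`-vertex graph of maximum
degree `k` which is not degree-majorized by an `r`-partite graph, for every `r` and all but finitely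
many pairs `(n, k)`, with a smaller explicit threshold for `n - k`.

The induction of the library proof (result `ExactAllN`) is run with a loss that depends on the number
of levels left after the first block, so the loss is squared only every second level, and the
conditions on the threshold are checked block by block.

The definitions (`Admissible`, `minCliques`, ...) are those of the starting file
`Pool.Agent.Results.MP_76b19e_co.ForcedCliques`.
-/

namespace Pool.Agent.Results.MP_76b19e_co.ExactSmallerThreshold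

open Pool.Agent.Results.MP_76b19e_co.ForcedCliques
open Pool.Agent.N917

/-- The exponent `r - 1 - s`, where `s` is the largest number at most `r - 1` with
`s (s + 1) / 2 ≤ t := n - 1 - r (n - k)`. -/
def expo (n k r : ℕ) : ℕ :=
  r - 1 - Nat.findGreatest (fun s => s * (s + 1) ≤ 2 * (n - 1 - r * (n - k))) (r - 1)

/-- the formula in terms of the maximal `s` -/
theorem main {n k r : ℕ} (hr : 2 ≤ r) (hk : k < n) (hdom : r * (n - k) + 1 ≤ n) {s : ℕ}
    (hs : s ≤ r - 1) (hst : s * (s + 1) ≤ 2 * (n - 1 - r * (n - k)))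
    (hst2 : s = r - 1 ∨ 2 * (n - 1 - r * (n - k)) < (s + 1) * (s + 2))
    (h : r ≤ 3 ∨ r - 1 - s ≤ 1 ∨ 2000000 * 32 ^ r + 344 * (r - 1).factorial ≤ n - k ∨
      (s * (s + 1) = 2 * (n - 1 - r * (n - k)) ∧ 16 * r ^ 2 ≤ n - k ∧
        (s ≤ 1 ∨ (r + 1).factorial ≤ n - k))) :
    minCliques n k r = (n - k) ^ (r - 1 - s) := by
  have hsmall : r - 1 - s ≤ 1 → minCliques n k r = (n - k) ^ (r - 1 - s) :=
    ((ForcedCliques.result n k r hr).2 hk hdom s hs hst hst2).2.2
  rcases h with h | h | h | ⟨h1, h2, h3⟩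
  · rcases Nat.lt_or_ge r 3 with h3 | h3
    · exact hsmall (by omega)
    · obtain rfl : r = 3 := by omega
      have hP : K4.S_PURE := K4.pure_of K4.t_SUM K4.t_MOVE K4.t_CNT (K4.t_MAX K4.t_F.1)
        (K4.t_LOCG (K4.loc_of K4.t_F K4.t_NUM K4.t_P K4.t_SET K4.t_GH))
      exact (K4.final_of hP n k).2 hk hdom s hs hst hst2
  · exact hsmall h
  · refine MB.fin_expl hr (Pool.Agent.KS6_48.THR.ca' r) ?_ hk h hdom hs hst hst2
    unfold Pool.Agent.KS6_48.THR.Q1
    exact Nat.one_le_iff_ne_zero.2 (by positivity)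
  · refine (KR.t_FIN (KR.blk_of KR.t_SUM KR.t_LAST KR.t_CRUDE KR.t_ID KR.t_MOVE KR.t_BUD KR.t_YF
      KR.t_CNT (KR.t_P1 KR.t_CRUDE KR.t_ID) (KR.t_NUMP KR.t_RL) KR.t_TR
      (KR.t_FL1 KR.t_CRUDE KR.t_RL KR.t_BUD) (KR.t_FL2 KR.t_BUD))) n k r hr hk h2 s hs ?_ h3
    omega

/-- **Main result.**  Let `r ≥ 2`, `D = n - k`, `n ≥ r D + 1` (the range where such graphs exist).
1. The least number of copies of `K_{r+1}` in an `n`-vertex graph with maximum degree `k` that is
not degree-majorized by an `r`-partite graph is exactly `D ^ expo n k r` if `r ≤ 3`, or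
`expo n k r ≤ 1`, or `D ≥ 2000000 * 32 ^ r + 344 (r - 1)!`, or if `t = s (s + 1) / 2` with
`s ≤ 1`, `D ≥ 16 r ^ 2` or `s ≤ r - 1`, `D ≥ max (16 r ^ 2) (r + 1)!`.
2. So for every `r` the formula holds for all but finitely many pairs `(n, k)`. -/
theorem result :
    (∀ n k r : ℕ, 2 ≤ r → k < n → r * (n - k) + 1 ≤ n →
      (r ≤ 3 ∨ expo n k r ≤ 1 ∨ 2000000 * 32 ^ r + 344 * (r - 1).factorial ≤ n - k ∨
        (16 * r ^ 2 ≤ n - k ∧ ∃ s : ℕ, s ≤ r - 1 ∧ s * (s + 1) = 2 * (n - 1 - r * (n - k)) ∧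
          (s ≤ 1 ∨ (r + 1).factorial ≤ n - k))) →
      minCliques n k r = (n - k) ^ expo n k r) ∧
    (∀ r : ℕ, 2 ≤ r → {p : ℕ × ℕ | p.2 < p.1 ∧ r * (p.1 - p.2) + 1 ≤ p.1 ∧
      minCliques p.1 p.2 r ≠ (p.1 - p.2) ^ expo p.1 p.2 r}.Finite) := by
  have key : ∀ n k r : ℕ, 2 ≤ r →
      let s := Nat.findGreatest (fun s => s * (s + 1) ≤ 2 * (n - 1 - r * (n - k))) (r - 1)
      s ≤ r - 1 ∧ s * (s + 1) ≤ 2 * (n - 1 - r * (n - k)) ∧
      (s = r - 1 ∨ 2 * (n - 1 - r * (n - k)) < (s + 1) * (s + 2)) := by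
    intro n k r hr s
    have h1 : s ≤ r - 1 := Nat.findGreatest_le _
    have h2 : s * (s + 1) ≤ 2 * (n - 1 - r * (n - k)) :=
      Nat.findGreatest_spec (P := fun s => s * (s + 1) ≤ 2 * (n - 1 - r * (n - k)))
        (m := 0) (Nat.zero_le _) (by simp)
    refine ⟨h1, h2, ?_⟩
    by_cases h3 : s = r - 1
    · exact Or.inl h3
    · right
      have h4 : ¬ ((s + 1) * (s + 1 + 1) ≤ 2 * (n - 1 - r * (n - k))) :=
        Nat.findGreatest_is_greatest
          (P := fun s => s * (s + 1) ≤ 2 * (n - 1 - r * (n - k))) (n := r - 1) (k := s + 1)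
          (Nat.lt_succ_self _) (by omega)
      exact Nat.lt_of_not_le h4
  have first : ∀ n k r : ℕ, 2 ≤ r → k < n → r * (n - k) + 1 ≤ n →
      (r ≤ 3 ∨ expo n k r ≤ 1 ∨ 2000000 * 32 ^ r + 344 * (r - 1).factorial ≤ n - k ∨
        (16 * r ^ 2 ≤ n - k ∧ ∃ s : ℕ, s ≤ r - 1 ∧ s * (s + 1) = 2 * (n - 1 - r * (n - k)) ∧
          (s ≤ 1 ∨ (r + 1).factorial ≤ n - k))) →
      minCliques n k r = (n - k) ^ expo n k r := by
    intro n k r hr hk hdom h
    obtain ⟨h1, h2, h3⟩ := key n k r hr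
    refine main hr hk hdom h1 h2 h3 ?_
    rcases h with h | h | h | ⟨h4, s', h5, h6, h7⟩
    · exact Or.inl h
    · exact Or.inr (Or.inl h)
    · exact Or.inr (Or.inr (Or.inl h))
    · right; right; right
      set s := Nat.findGreatest (fun s => s * (s + 1) ≤ 2 * (n - 1 - r * (n - k))) (r - 1)
      have h8 : s' ≤ s := Nat.le_findGreatest h5 h6.le
      have h9 : s ≤ s' := by
        by_contra h10
        push Not at h10
        have : (s' + 1) * (s' + 1 + 1) ≤ s * (s + 1) := Nat.mul_le_mul (by omega) (by omega)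
        have h11 : (s' + 1) * (s' + 1 + 1) = s' * (s' + 1) + 2 * (s' + 1) := by ring
        omega
      have h10 : s = s' := le_antisymm h9 h8
      rw [h10]
      exact ⟨h6, h4, h7⟩
  refine ⟨first, ?_⟩
  intro r hr
  set M := 2000000 * 32 ^ r + 344 * (r - 1).factorial with hM
  apply Set.Finite.subset
    ((Finset.range (r * M + 2 + r * r) ×ˢ Finset.range (r * M + 2 + r * r)).finite_toSet)
  rintro ⟨n, k⟩ ⟨h1, h2, h3⟩
  simp only at h1 h2 h3
  have hD : n - k < M := by
    by_contra h4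
    exact h3 (first n k r hr h1 h2 (Or.inr (Or.inr (Or.inl (by omega)))))
  have he : ¬ expo n k r ≤ 1 := fun h4 => h3 (first n k r hr h1 h2 (Or.inr (Or.inl h4)))
  obtain ⟨k1, k2, k3⟩ := key n k r hr
  unfold expo at he
  set s := Nat.findGreatest (fun s => s * (s + 1) ≤ 2 * (n - 1 - r * (n - k))) (r - 1)
  have h5 : 2 * (n - 1 - r * (n - k)) < (s + 1) * (s + 2) := by
    rcases k3 with k3 | k3
    · omega
    · exact k3
  have h6 : (s + 1) * (s + 2) ≤ r * r := Nat.mul_le_mul (by omega) (by omega)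
  have h7 : r * (n - k) ≤ r * M := Nat.mul_le_mul_left _ hD.le
  have h8 : n < r * M + 2 + r * r := by omega
  simp only [Finset.coe_product, Finset.coe_range, Set.mem_prod, Set.mem_Iio]
  exact ⟨h8, by omega⟩

end Pool.Agent.Results.MP_76b19e_co.ExactSmallerThreshold
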